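import Pool.Agent.Y522.Stm5

/-!
# Straightening a map which is close to the projection (project SH2, job 1138)
-/

set_option autoImplicit false

open Set Filter Topology Metric Function MeasureTheory
open scoped Manifold ContDiff

noncomputable section

namespace Pool.Agent.Y337.SH

open Pool.Agent.Y522

variable {m : ℕ}

theorem norm_cn_zero (x : E m) : ‖(cn 0 x : E (m + 1))‖ = ‖x‖ := by
  have h := norm_cn_sq 0 x
  have h1 : ‖(cn 0 x : E (m + 1))‖ ^ 2 = ‖x‖ ^ 2 := by rw [h]; ring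
  exact (pow_left_inj₀ (norm_nonneg _) (norm_nonneg _) (by norm_num)).1 h1

theorem norm_inc_le : ‖(inc : E m →L[ℝ] E (m + 1))‖ ≤ 1 := by
  refine ContinuousLinearMap.opNorm_le_bound _ (by norm_num) fun x => ?_
  rw [inc_apply, norm_cn_zero, one_mul]

theorem tl_comp_inc : (tl : E (m + 1) →L[ℝ] E m).comp inc = ContinuousLinearMap.id ℝ (E m) := by
  ext x i
  simp

/-- the map `z ↦ (z 0, q z)` -/
def Th (q : E (m + 1) → E m) (z : E (m + 1)) : E (m + 1) := cn (z 0) (q z)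

theorem cn_mem_box {R η t : ℝ} {x : E m} (hx : ‖x‖ ≤ R) (ht : |t| ≤ η) :
    (cn t x : E (m + 1)) ∈ box m R η := ⟨by simpa using hx, by simpa using ht⟩

theorem box_subset {R η R' η' : ℝ} (h : R ≤ R') (h' : η ≤ η') : box m R η ⊆ box m R' η' :=
  fun _ hz => ⟨hz.1.trans h, hz.2.trans h'⟩

/-- the Lipschitz estimate -/
theorem lip {q : E (m + 1) → E m} (hq : ∀ z ∈ box m 1 1, ∀ᶠ y in 𝓝 z, ContDiffAt ℝ ∞ q y)
    (h2 : ∀ z ∈ box m 1 1, ‖fderiv ℝ q z - tl‖ ≤ 1 / 8) {t : ℝ} (ht : |t| ≤ 1) {x y : E m}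
    (hx : ‖x‖ ≤ 1) (hy : ‖y‖ ≤ 1) :
    ‖(q (cn t x) - x) - (q (cn t y) - y)‖ ≤ 1 / 8 * ‖x - y‖ := by
  have key : ∀ v ∈ closedBall (0 : E m) 1, HasFDerivWithinAt (fun v => q (cn t v) - v)
      ((fderiv ℝ q (cn t v) - tl).comp inc) (closedBall (0 : E m) 1) v := by
    intro v hv
    have hv' : ‖v‖ ≤ 1 := by simpa using hv
    have hb : (cn t v : E (m + 1)) ∈ box m 1 1 := cn_mem_box hv' ht
    have h3 : HasFDerivAt q (fderiv ℝ q (cn t v)) (cn t v) :=
      ((hq _ hb).self_of_nhds.differentiableAt (by simp)).hasFDerivAt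
    have h4 : HasFDerivAt (fun v : E m => (cn t v : E (m + 1))) inc v := by
      have h5 : (fun v : E m => (cn t v : E (m + 1))) = fun v => t • e0 + inc v := by
        funext v
        rw [cn_eq, inc_apply]
      rw [h5]
      exact inc.hasFDerivAt.const_add _
    have h6 : HasFDerivAt (fun v => q (cn t v)) ((fderiv ℝ q (cn t v)).comp inc) v :=
      HasFDerivAt.comp v h3 h4
    have h7 := (h6.sub (hasFDerivAt_id v)).hasFDerivWithinAt (s := closedBall (0 : E m) 1)
    have h8 : (fderiv ℝ q (cn t v)).comp inc - ContinuousLinearMap.id ℝ (E m) =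
        (fderiv ℝ q (cn t v) - tl).comp inc := by
      rw [ContinuousLinearMap.sub_comp, tl_comp_inc]
    rw [h8] at h7
    exact h7
  have hb : ∀ v ∈ closedBall (0 : E m) 1, ‖(fderiv ℝ q (cn t v) - tl).comp inc‖ ≤ 1 / 8 := by
    intro v hv
    have hv' : ‖v‖ ≤ 1 := by simpa using hv
    refine (ContinuousLinearMap.opNorm_comp_le _ _).trans ?_
    have h5 := h2 _ (cn_mem_box hv' ht)
    have h6 : ‖(inc : E m →L[ℝ] E (m + 1))‖ ≤ 1 := norm_inc_le
    calc ‖fderiv ℝ q (cn t v) - tl‖ * ‖(inc : E m →L[ℝ] E (m + 1))‖ ≤ 1 / 8 * 1 :=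
          mul_le_mul h5 h6 (norm_nonneg _) (by norm_num)
      _ = 1 / 8 := by norm_num
  exact (convex_closedBall (0 : E m) 1).norm_image_sub_le_of_norm_hasFDerivWithin_le key hb
    (by simpa using hy) (by simpa using hx)

theorem injOn_Th {q : E (m + 1) → E m}
    (hq : ∀ z ∈ box m 1 1, ∀ᶠ y in 𝓝 z, ContDiffAt ℝ ∞ q y)
    (h2 : ∀ z ∈ box m 1 1, ‖fderiv ℝ q z - tl‖ ≤ 1 / 8) : InjOn (Th q) (box m 1 1) := by
  intro z hz z' hz' h
  have e1 : z 0 = z' 0 := by
    have := congrArg (fun v : E (m + 1) => v 0) h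
    simpa [Th] using this
  have e2 : q z = q z' := by
    have := congrArg tl h
    simpa [Th] using this
  have h3 := lip hq h2 (t := z 0) hz.2 hz.1 hz'.1
  have e3 : (cn (z 0) (tl z') : E (m + 1)) = z' := by rw [e1, cn_tl]
  rw [cn_tl, e3, e2] at h3
  have h4 : q z' - tl z - (q z' - tl z') = tl z' - tl z := by abel
  rw [h4, norm_sub_rev] at h3
  have h5 : ‖tl z - tl z'‖ = 0 := by
    have := norm_nonneg (tl z - tl z')
    linarith
  have h6 : tl z = tl z' := by
    rw [norm_eq_zero, sub_eq_zero] at h5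
    exact h5
  rw [← cn_tl z, ← cn_tl z', e1, h6]

theorem exists_pre {q : E (m + 1) → E m}
    (hq : ∀ z ∈ box m 1 1, ∀ᶠ y in 𝓝 z, ContDiffAt ℝ ∞ q y)
    (h1 : ∀ z ∈ box m 1 1, ‖q z - tl z‖ ≤ 1 / 8)
    (h2 : ∀ z ∈ box m 1 1, ‖fderiv ℝ q z - tl‖ ≤ 1 / 8) {w : E (m + 1)}
    (hw : w ∈ box m (3 / 4) (3 / 4)) : ∃ z ∈ box m (7 / 8) (3 / 4), Th q z = w := by
  have ht : |w 0| ≤ 1 := hw.2.trans (by norm_num)
  set φ : E m → E m := fun x => tl w - (q (cn (w 0) x) - x) with hφ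
  have hmaps : MapsTo φ (closedBall (0 : E m) (7 / 8)) (closedBall (0 : E m) (7 / 8)) := by
    intro x hx
    have hx' : ‖x‖ ≤ 7 / 8 := by simpa using hx
    have h3 := h1 _ (cn_mem_box (t := w 0) (hx'.trans (by norm_num)) ht)
    rw [tl_cn] at h3
    have h4 : ‖φ x‖ ≤ ‖tl w‖ + ‖q (cn (w 0) x) - x‖ := norm_sub_le _ _
    have h5 := hw.1
    have h6 : ‖φ x‖ ≤ 7 / 8 := by linarith
    simpa using h6
  have hcontr : ContractingWith (1 / 8) (hmaps.restrict φ _ _) := by
    refine ⟨by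
      rw [← NNReal.coe_lt_coe]
      norm_num, ?_⟩
    refine LipschitzWith.of_dist_le_mul fun x y => ?_
    have hx' : ‖(x : E m)‖ ≤ 1 := by
      have := x.2
      rw [mem_closedBall_zero_iff] at this
      linarith
    have hy' : ‖(y : E m)‖ ≤ 1 := by
      have := y.2
      rw [mem_closedBall_zero_iff] at this
      linarith
    have h3 := lip hq h2 ht hy' hx'
    rw [Subtype.dist_eq, Subtype.dist_eq, dist_eq_norm, dist_eq_norm]
    change ‖φ x - φ y‖ ≤ _
    have h4 : φ x - φ y = (q (cn (w 0) (y : E m)) - y) - (q (cn (w 0) (x : E m)) - x) := by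
      rw [hφ]
      simp only
      abel
    rw [h4]
    refine h3.trans ?_
    rw [norm_sub_rev]
    norm_num
  obtain ⟨x, hx, hfix, -⟩ := hcontr.exists_fixedPoint' (isClosed_closedBall.isComplete) hmaps
    (mem_closedBall_self (by norm_num)) (edist_ne_top _ _)
  have hx' : ‖x‖ ≤ 7 / 8 := by simpa using hx
  have h5 : q (cn (w 0) x) = tl w := by
    have h6 : tl w - (q (cn (w 0) x) - x) = x := hfix
    have h7 : tl w - q (cn (w 0) x) = 0 := by
      have h8 : tl w - (q (cn (w 0) x) - x) - x = 0 := by rw [h6]; simp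
      have h9 : tl w - (q (cn (w 0) x) - x) - x = tl w - q (cn (w 0) x) := by abel
      rw [← h9, h8]
    exact (sub_eq_zero.1 h7).symm
  refine ⟨cn (w 0) x, cn_mem_box hx' hw.2, ?_⟩
  unfold Th
  rw [h5, cn_zero, cn_tl]

theorem ld_Th {q : E (m + 1) → E m}
    (hq : ∀ z ∈ box m 1 1, ∀ᶠ y in 𝓝 z, ContDiffAt ℝ ∞ q y)
    (h2 : ∀ z ∈ box m 1 1, ‖fderiv ℝ q z - tl‖ ≤ 1 / 8) {z : E (m + 1)} (hz : z ∈ box m 1 1) :
    LD (m + 1) (Th q) z := by
  have hTh : Th q = fun z => (EuclideanSpace.proj (0 : Fin (m + 1)) : E (m + 1) →L[ℝ] ℝ) z • (e0 : E (m + 1)) +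
      inc (q z) := by
    funext z
    rw [Th, cn_eq]
    rfl
  have hsm : ∀ᶠ y in 𝓝 z, ContDiffAt ℝ ∞ (Th q) y := by
    filter_upwards [hq z hz] with y hy
    rw [hTh]
    exact ((EuclideanSpace.proj (0 : Fin (m + 1)) : E (m + 1) →L[ℝ] ℝ).contDiff.contDiffAt.smul
      contDiffAt_const).add (inc.contDiff.contDiffAt.comp y hy)
  set D : E (m + 1) →L[ℝ] E (m + 1) :=
    (EuclideanSpace.proj (0 : Fin (m + 1)) : E (m + 1) →L[ℝ] ℝ).smulRight (e0 : E (m + 1)) +
      (inc : E m →L[ℝ] E (m + 1)).comp (fderiv ℝ q z) with hD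
  have hder : HasFDerivAt (Th q) D z := by
    rw [hTh]
    refine HasFDerivAt.add ?_ ?_
    · exact ((EuclideanSpace.proj (0 : Fin (m + 1)) : E (m + 1) →L[ℝ] ℝ).smulRight
        (e0 : E (m + 1))).hasFDerivAt
    · exact HasFDerivAt.comp z inc.hasFDerivAt
        (((hq z hz).self_of_nhds.differentiableAt (by simp)).hasFDerivAt)
  have hDv : ∀ v, D v = cn (v 0) (fderiv ℝ q z v) := by
    intro v
    rw [cn_eq]
    rfl
  have hinj : Injective D := by
    rw [injective_iff_map_eq_zero]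
    intro v hv
    rw [hDv] at hv
    have e1 : v 0 = 0 := by
      have := congrArg (fun u : E (m + 1) => u 0) hv
      simpa using this
    have e2 : fderiv ℝ q z v = 0 := by
      have := congrArg tl hv
      simpa using this
    have h3 : ‖(fderiv ℝ q z - (tl : E (m + 1) →L[ℝ] E m)) v‖ ≤ 1 / 8 * ‖v‖ :=
      (ContinuousLinearMap.le_opNorm _ _).trans
        (mul_le_mul_of_nonneg_right (h2 z hz) (norm_nonneg _))
    have h4 : (fderiv ℝ q z - (tl : E (m + 1) →L[ℝ] E m)) v = - tl v := by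
      rw [ContinuousLinearMap.sub_apply, e2, zero_sub]
    rw [h4, norm_neg] at h3
    have h5 := norm_sq_split v
    rw [e1] at h5
    have h6 : ‖v‖ = 0 := by
      have := norm_nonneg v
      have := norm_nonneg (tl v)
      by_contra hne
      have hpos : 0 < ‖v‖ := lt_of_le_of_ne (norm_nonneg v) (Ne.symm hne)
      nlinarith
    exact norm_eq_zero.1 h6
  set L := (LinearEquiv.ofInjectiveEndo (D : E (m + 1) →ₗ[ℝ] E (m + 1)) hinj).toContinuousLinearEquiv
    with hL
  refine LD_of_contDiffAt hsm L ?_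
  have h7 : (L : E (m + 1) →L[ℝ] E (m + 1)) = D := by
    ext v
    rfl
  rw [h7]
  exact hder

theorem straight : StStraight := by
  intro m q hq h1 h2
  have hinj := injOn_Th hq h2
  have hleft : LeftInvOn (invFunOn (Th q) (box m 1 1)) (Th q) (box m 1 1) :=
    hinj.leftInvOn_invFunOn
  have hsub : box m (7 / 8) (3 / 4) ⊆ box m 1 1 := box_subset (by norm_num) (by norm_num)
  have hmain : ∀ w ∈ box m (3 / 4) (3 / 4),
      invFunOn (Th q) (box m 1 1) w ∈ box m (7 / 8) (3 / 4) ∧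
        Th q (invFunOn (Th q) (box m 1 1) w) = w := by
    intro w hw
    obtain ⟨z, hz, hzw⟩ := exists_pre hq h1 h2 hw
    have h3 : invFunOn (Th q) (box m 1 1) w = z := by
      rw [← hzw]
      exact hleft (hsub hz)
    rw [h3]
    exact ⟨hz, hzw⟩
  refine ⟨invFunOn (Th q) (box m 1 1), ?_, ?_, ?_⟩
  · intro w hw
    obtain ⟨h3, h4⟩ := hmain w hw
    refine ⟨h3, ?_, ?_, ?_⟩
    · conv_rhs => rw [← h4]
      simp [Th]
    · conv_rhs => rw [← h4]
      simp [Th]
    · have hU : IsOpen {z : E (m + 1) | ‖tl z‖ < 1 ∧ |z 0| < 1} := by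
        refine IsOpen.inter ?_ ?_
        · exact isOpen_lt (tl.continuous.norm) continuous_const
        · exact isOpen_lt (continuous_head.abs) continuous_const
      have h5 : LD (m + 1) (invFunOn (Th q) (box m 1 1))
          (Th q (invFunOn (Th q) (box m 1 1) w)) := by
        refine LD.inverse (k := Th q) hU (fun x hx => ld_Th hq h2 ⟨hx.1.le, hx.2.le⟩)
          (fun x hx => hleft (show x ∈ box m 1 1 from ⟨hx.1.le, hx.2.le⟩)) ?_
        exact ⟨lt_of_le_of_lt h3.1 (by norm_num), lt_of_le_of_lt h3.2 (by norm_num)⟩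
      rwa [h4] at h5
  · intro w hw w' hw' h
    rw [← (hmain w hw).2, ← (hmain w' hw').2, h]
  · intro z hz
    refine ⟨cn_mem_box ?_ hz.2, hleft (box_subset (by norm_num) (by norm_num) hz)⟩
    have h3 := h1 z (box_subset (by norm_num) (by norm_num) hz)
    have h4 : q z = (q z - tl z) + tl z := by abel
    rw [h4]
    refine (norm_add_le _ _).trans ?_
    have h5 := hz.1
    linarith

end Pool.Agent.Y337.SH
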